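import Mathlib

set_option autoImplicit false

namespace Pool.Agent.Results.MP_df6457_lc.Infinite

open FreeMonoid

/-- the minimal generating set `(M ∖ {ε}) ∖ (M ∖ {ε})²` -/
def Base {A : Type} (M : Submonoid (FreeMonoid A)) : Set (FreeMonoid A) :=
  {x | x ∈ M ∧ x ≠ 1 ∧ ¬ ∃ y ∈ M, ∃ z ∈ M, y ≠ 1 ∧ z ≠ 1 ∧ x = y * z}

/-- `M` is free: its minimal generating set is a code -/
def IsFreeSub {A : Type} (M : Submonoid (FreeMonoid A)) : Prop :=
  ∀ l l' : List (FreeMonoid A), (∀ x ∈ l, x ∈ Base M) → (∀ x ∈ l', x ∈ Base M) →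
    l.prod = l'.prod → l = l'

/-- `M` is `L`-maximal free -/
def IsMaxFree {A : Type} (L : Language A) (M : Submonoid (FreeMonoid A)) : Prop :=
  IsFreeSub M ∧ (∀ w ∈ M, toList w ∈ L) ∧
    ∀ N : Submonoid (FreeMonoid A), IsFreeSub N → M ≤ N → (∀ w ∈ N, toList w ∈ L) → N = M

def Stable {A : Type} (M : Submonoid (FreeMonoid A)) : Prop :=
  ∀ u w v, u ∈ M → u * w ∈ M → w * v ∈ M → v ∈ M → w ∈ M

theorem len_pos {A : Type} {x : FreeMonoid A} (h : x ≠ 1) : 0 < x.length := by
  rw [Nat.pos_iff_ne_zero]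
  intro h0
  exact h (FreeMonoid.length_eq_zero.mp h0)

theorem factor {A : Type} (M : Submonoid (FreeMonoid A)) (n : ℕ) : ∀ w ∈ M, w.length ≤ n →
    ∃ l : List (FreeMonoid A), (∀ x ∈ l, x ∈ Base M) ∧ l.prod = w := by
  induction n with
  | zero =>
    intro w _ h
    exact ⟨[], by simp, (FreeMonoid.length_eq_zero.mp (by omega)).symm⟩
  | succ n ih =>
    intro w hw h
    by_cases h1 : w = 1
    · exact ⟨[], by simp, h1.symm⟩
    by_cases h2 : ∃ y ∈ M, ∃ z ∈ M, y ≠ 1 ∧ z ≠ 1 ∧ w = y * z
    · obtain ⟨y, hy, z, hz, h3, h4, rfl⟩ := h2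
      rw [FreeMonoid.length_mul] at h
      have := len_pos h3
      have := len_pos h4
      obtain ⟨l1, k1, rfl⟩ := ih y hy (by omega)
      obtain ⟨l2, k2, rfl⟩ := ih z hz (by omega)
      refine ⟨l1 ++ l2, fun x hx => ?_, List.prod_append⟩
      rcases List.mem_append.mp hx with hx | hx
      · exact k1 x hx
      · exact k2 x hx
    · exact ⟨[w], by simpa using ⟨hw, h1, h2⟩, by simp⟩

theorem stable_of_free {A : Type} {M : Submonoid (FreeMonoid A)} (h : IsFreeSub M) :
    Stable M := by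
  intro u w v h1 h2 h3 h4
  obtain ⟨l1, k1, e1⟩ := factor M _ _ h1 le_rfl
  obtain ⟨l2, k2, e2⟩ := factor M _ _ h2 le_rfl
  obtain ⟨l3, k3, e3⟩ := factor M _ _ h3 le_rfl
  obtain ⟨l4, k4, e4⟩ := factor M _ _ h4 le_rfl
  have := h (l1 ++ l3) (l2 ++ l4)
    (fun x hx => (List.mem_append.mp hx).elim (k1 x) (k3 x))
    (fun x hx => (List.mem_append.mp hx).elim (k2 x) (k4 x))
    (by rw [List.prod_append, List.prod_append, e1, e2, e3, e4, mul_assoc])
  rcases List.append_eq_append_iff.mp this with ⟨r, rfl, _⟩ | ⟨r, rfl, _⟩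
  · rw [List.prod_append, e1] at e2
    rw [← mul_left_cancel e2]
    exact M.list_prod_mem fun x hx => (k2 x (by simp [hx])).1
  · rw [List.prod_append, e2] at e1
    have := congrArg FreeMonoid.length e1
    simp only [FreeMonoid.length_mul] at this
    rw [FreeMonoid.length_eq_zero.mp (show w.length = 0 by omega)]
    exact M.one_mem

theorem free_of_stable {A : Type} {M : Submonoid (FreeMonoid A)} (h : Stable M) :
    IsFreeSub M := by
  have key : ∀ (x x' r : FreeMonoid A) (l l' : List (FreeMonoid A)), x ∈ Base M → x' ∈ Base M →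
      (∀ y ∈ l, y ∈ Base M) → (∀ y ∈ l', y ∈ Base M) → x' = x * r → l.prod = r * l'.prod →
      r = 1 := by
    intro x x' r l l' hx hx' hl hl' e1 e2
    by_contra hr
    refine hx'.2.2 ⟨x, hx.1, r, h x r l'.prod hx.1 (e1 ▸ hx'.1) (e2 ▸ ?_) ?_, hx.2.1, hr, e1⟩
    · exact M.list_prod_mem fun y hy => (hl y hy).1
    · exact M.list_prod_mem fun y hy => (hl' y hy).1
  intro l
  induction l with
  | nil =>
    intro l' _ h2 h3
    cases l' with
    | nil => rfl
    | cons x l' =>
      have := congrArg FreeMonoid.length h3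
      have h4 := len_pos (h2 x (by simp)).2.1
      simp only [List.prod_nil, List.prod_cons, FreeMonoid.length_mul, FreeMonoid.length_one]
        at this
      omega
  | cons x l ih =>
    intro l' h1 h2 h3
    cases l' with
    | nil =>
      have := congrArg FreeMonoid.length h3
      have h4 := len_pos (h1 x (by simp)).2.1
      simp only [List.prod_nil, List.prod_cons, FreeMonoid.length_mul, FreeMonoid.length_one]
        at this
      omega
    | cons x' l' =>
      have hx := h1 x (by simp)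
      have hx' := h2 x' (by simp)
      have hl : ∀ y ∈ l, y ∈ Base M := fun y hy => h1 y (by simp [hy])
      have hl' : ∀ y ∈ l', y ∈ Base M := fun y hy => h2 y (by simp [hy])
      rw [List.prod_cons, List.prod_cons] at h3
      have h4 : toList x ++ toList l.prod = toList x' ++ toList l'.prod := congrArg toList h3
      have hxx : x = x' := by
        rcases List.append_eq_append_iff.mp h4 with ⟨r, e1, e2⟩ | ⟨r, e1, e2⟩
        · have e1' : x' = x * ofList r := e1
          rw [e1', key x x' (ofList r) l l' hx hx' hl hl' e1 e2, mul_one]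
        · have e1' : x = x' * ofList r := e1
          rw [e1', key x' x (ofList r) l' l hx' hx hl' hl e1 e2, mul_one]
      subst hxx
      rw [ih l' hl hl' (mul_left_cancel h3)]

theorem exists_max {A : Type} (L : Language A) (M : Submonoid (FreeMonoid A)) (h1 : Stable M)
    (h2 : ∀ w ∈ M, toList w ∈ L) : ∃ N, M ≤ N ∧ IsMaxFree L N := by
  obtain ⟨N, hN, hmax⟩ := zorn_le_nonempty₀
    {N : Submonoid (FreeMonoid A) | Stable N ∧ ∀ w ∈ N, toList w ∈ L} (by
      intro c hc hchain y hy
      have hm : ∀ {x}, x ∈ sSup c ↔ ∃ s ∈ c, x ∈ s :=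
        Submonoid.mem_sSup_of_directedOn ⟨y, hy⟩ hchain.directedOn
      refine ⟨sSup c, ⟨?_, ?_⟩, fun z hz => le_sSup hz⟩
      · intro u w v a1 a2 a3 a4
        obtain ⟨s1, b1, a1⟩ := hm.mp a1
        obtain ⟨s2, b2, a2⟩ := hm.mp a2
        obtain ⟨s3, b3, a3⟩ := hm.mp a3
        obtain ⟨s4, b4, a4⟩ := hm.mp a4
        obtain ⟨t1, c1, d1, d2⟩ := hchain.directedOn s1 b1 s2 b2
        obtain ⟨t2, c2, d3, d4⟩ := hchain.directedOn s3 b3 s4 b4
        obtain ⟨t, c3, d5, d6⟩ := hchain.directedOn t1 c1 t2 c2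
        exact hm.mpr ⟨t, c3, (hc c3).1 u w v (d5 (d1 a1)) (d5 (d2 a2)) (d6 (d3 a3)) (d6 (d4 a4))⟩
      · intro w hw
        obtain ⟨s, b, a⟩ := hm.mp hw
        exact (hc b).2 w a) M ⟨h1, h2⟩
  exact ⟨N, hN, free_of_stable hmax.1.1, hmax.1.2, fun N' k1 k2 k3 =>
    le_antisymm (hmax.2 ⟨stable_of_free k1, k3⟩ k2) k2⟩

/-- letters: 0 = a, 1 = b, 2 = c -/
def D : DFA (Fin 3) (Fin 4) where
  step s x := if s = 3 then 3 else if x = 1 then s + 1 else 0
  start := 0
  accept := {s | s ≠ 3}

theorem D_mono (w : List (Fin 3)) : ∀ s s', s ≤ s' → D.evalFrom s w ≤ D.evalFrom s' w := by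
  induction w with
  | nil => intro s s' h; exact h
  | cons x w ih =>
    intro s s' h
    apply ih
    revert s s' x
    decide

theorem D_sink (w : List (Fin 3)) : D.evalFrom 3 w = 3 := by
  induction w with
  | nil => rfl
  | cons x w ih => exact ih

def dl (j : ℕ) (q : ℕ) (x : Fin 3) : ℕ :=
  if q = 0 then (if x = 0 then 4 else if x = 1 then 1 else 0)
  else if q = 1 then (if x = 2 then 0 else 3)
  else if q = 2 then (if x = 1 then 0 else 3)
  else if q = 3 then 3
  else (if x = 0 then q + 1 else if x = 1 then 3 else if q - 4 < j then 2 else 0)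

def Mj (j : ℕ) : Submonoid (FreeMonoid (Fin 3)) where
  carrier := {w | (toList w).foldl (dl j) 0 = 0}
  mul_mem' := by
    intro a b ha hb
    change (toList a ++ toList b).foldl (dl j) 0 = 0
    rw [List.foldl_append, ha, hb]
  one_mem' := rfl

theorem Mj_stable (j : ℕ) : Stable (Mj j) := by
  intro u w v h1 h2 _ _
  change (toList u ++ toList w).foldl (dl j) 0 = 0 at h2
  rw [List.foldl_append, h1] at h2
  exact h2

theorem Mj_inv (j : ℕ) (w : List (Fin 3)) : ∀ (q : ℕ) (s : Fin 4),
    (q = 3 ∨ (q = 0 ∧ s ≤ 1) ∨ (q = 1 ∧ s ≤ 2) ∨ s = 0) → w.foldl (dl j) q = 0 →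
      D.evalFrom s w ≠ 3 := by
  induction w with
  | nil =>
    intro q s h hq
    simp only [List.foldl_nil] at hq
    change s ≠ 3
    omega
  | cons x w ih =>
    intro q s h hq
    refine ih _ (D.step s x) ?_ hq
    rcases h with rfl | ⟨rfl, h⟩ | ⟨rfl, h⟩ | rfl
    · left; rfl
    · fin_cases x <;> fin_cases s <;> simp_all [dl, D]
    · fin_cases x <;> fin_cases s <;> simp_all [dl, D]
    · fin_cases x <;> simp [dl, D]
      split_ifs <;> simp <;> omega

theorem run_a (j i : ℕ) : (List.replicate (i + 1) (0 : Fin 3)).foldl (dl j) 0 = 4 + i := by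
  induction i with
  | zero => rfl
  | succ i ih =>
    rw [List.replicate_succ', List.foldl_append, ih]
    simp only [List.foldl_cons, List.foldl_nil, dl]
    split_ifs <;> omega

theorem result : ∃ (A : Type) (_ : Finite A) (L : Language A),
    (∀ x u y : List A, x ++ u ++ y ∈ L → u ∈ L) ∧
    (∀ u ∈ L, ∀ v ∈ L, ∃ w : List A, u ++ w ++ v ∈ L) ∧
    L.IsRegular ∧ {M : Submonoid (FreeMonoid A) | IsMaxFree L M}.Infinite := by
  refine ⟨Fin 3, inferInstance, D.accepts, ?_, ?_, ⟨Fin 4, inferInstance, D, rfl⟩, ?_⟩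
  · intro x u y h hu
    apply h
    change D.evalFrom 0 u = 3 at hu
    change D.evalFrom 0 (x ++ u ++ y) = 3
    have := D_mono u 0 (D.evalFrom 0 x) (Fin.zero_le _)
    rw [DFA.evalFrom_of_append, DFA.evalFrom_of_append, show D.evalFrom (D.evalFrom 0 x) u = 3 by
      omega, D_sink]
  · intro u hu v hv
    refine ⟨[2], ?_⟩
    change D.evalFrom 0 (u ++ [2] ++ v) ≠ 3
    have hu' : D.evalFrom 0 u ≠ 3 := hu
    have : D.evalFrom 0 (u ++ [2]) = 0 := by
      rw [DFA.evalFrom_append_singleton]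
      simp [D] at hu' ⊢
      simp [hu']
    rw [DFA.evalFrom_of_append, this]
    exact hv
  · choose N hN hmax using fun j => exists_max D.accepts (Mj j) (Mj_stable j)
      fun w hw => Mj_inv j (toList w) 0 0 (by simp) hw
    have key : ∀ j k, j < k → N j ≠ N k := by
      intro j k hjk he
      have h1 : ofList (List.replicate (j + 1) 0 ++ [2]) ∈ Mj j := by
        change (List.replicate (j + 1) (0 : Fin 3) ++ [2]).foldl (dl j) 0 = 0
        rw [List.foldl_append, run_a]
        simp only [List.foldl_cons, List.foldl_nil, dl]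
        split_ifs <;> omega
      have h2 : ofList (List.replicate (j + 1) 0 ++ [2]) * ofList [1] ∈ Mj k := by
        change (List.replicate (j + 1) (0 : Fin 3) ++ [2] ++ [1]).foldl (dl k) 0 = 0
        rw [List.foldl_append, List.foldl_append, run_a]
        have : dl k (4 + j) 2 = 2 := by
          simp only [dl]
          split_ifs <;> omega
        simp only [List.foldl_cons, List.foldl_nil, this]
        rfl
      have h3 : ofList [1] * ofList [2] ∈ Mj j := rfl
      have h4 : ofList [2] ∈ Mj j := rfl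
      have hb := stable_of_free (hmax j).1 _ _ _ (hN j h1) (he ▸ hN k h2) (hN j h3) (hN j h4)
      exact (hmax j).2.1 _ ((N j).mul_mem hb ((N j).mul_mem hb hb)) rfl
    refine Set.infinite_of_injective_forall_mem (f := N) (fun j k h => ?_) hmax
    rcases lt_trichotomy j k with h1 | h1 | h1
    · exact absurd h (key j k h1)
    · exact h1
    · exact absurd h.symm (key k j h1)

end Pool.Agent.Results.MP_df6457_lc.Infinite
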